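import Pool.Agent.R316.DSe
import Pool.Agent.R316.DSf

/-!
# A dense subfield of the real closure of `ℚ(t)` in which `ℚ` is relatively algebraically closed

The real closure `K` of `ℚ(t)` (with `t` infinitely large) is a real closed ordered field with an
element `t` larger than all natural numbers such that `K` is algebraic over `ℚ(t)`; by the theorem
of Artin and Schreier these properties determine `K` up to isomorphism over `ℚ(t)`.

`K` is countable. The subfield is the union of a chain of finite extensions `F` of `ℚ(t)` in `K`.
To come close to an element `a` of `K`, which we may assume to be a simple root of a monic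
polynomial `P` over `ℚ[t]`, take a prime number `p` larger than `[F : ℚ(t)]` and than the degree of
`P`, put `G = P X ^ (p - deg P)` and adjoin a root `b` of `G(X) = t ^ (1 - l p)` with large `l`. By
the intermediate value property there is such a root close to `a`, and `t ^ l b` is a root of an
Eisenstein polynomial for the prime `t`, over `k[t]` for every field `k` of algebraic numbers. A
comparison of degrees shows that `F(b)` contains no new algebraic numbers.
-/

set_option autoImplicit false

open IntermediateField

namespace Pool.Agent.Results.MP_9bb08e_al.DenseSubfield

/-- Let `K` be the real closure of `ℚ(t)`, `t` infinitely large: a real closed ordered field, with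
`n < t` for all natural numbers `n`, which is algebraic over `ℚ(t)`. There is a subfield `F` of `K`
which is dense in `K` and in which `ℚ` is relatively algebraically closed; moreover `t ∈ F`. -/
theorem result (K : Type*) [Field K] [LinearOrder K] [IsStrictOrderedRing K] [IsRealClosed K]
    (t : K) (ht : ∀ n : ℕ, (n : K) < t) (halg : ∀ x : K, IsAlgebraic ℚ⟮t⟯ x) :
    ∃ F : Subfield K, (∀ a b : K, a < b → ∃ f ∈ F, a < f ∧ f < b) ∧
      (∀ x ∈ F, IsAlgebraic ℚ x → ∃ r : ℚ, x = (r : K)) ∧ t ∈ F := by
  obtain ⟨F, h1, h2, h3⟩ := Pool.Agent.R316.DS.main Pool.Agent.R316.DS.ivp_of_isRealClosed ht halg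
  exact ⟨F, h2, h3, h1⟩

end Pool.Agent.Results.MP_9bb08e_al.DenseSubfield
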